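import Pool.Agent.Helper92.UQ.Goals

/-!
# Project T3 (MP_a41896_nt), part UQ: goal LYO
-/

set_option autoImplicit false

namespace Pool.Agent.Helper45.UQ.LYO

theorem t : Pool.Agent.Helper92.UQ.LYO := by
  intro A B Ω _ _ _ _ _ _ φ hker
  haveI hp : (RingHom.ker φ).IsPrime := RingHom.ker_isPrime φ
  obtain ⟨Q, -, hQ, hQ'⟩ := Ideal.exists_ideal_over_prime_of_isIntegral (RingHom.ker φ)
    (⊥ : Ideal B) (by rw [← RingHom.ker_eq_comap_bot]; exact hker)
  haveI := hQ
  haveI : (Q.comap (algebraMap A B)).IsPrime := Ideal.comap_isPrime _ _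
  let φ' : A ⧸ Q.comap (algebraMap A B) →+* Ω := Ideal.Quotient.lift _ φ fun a ha => by
    rw [hQ'] at ha
    exact ha
  have hinj : Function.Injective φ' := by
    rw [injective_iff_map_eq_zero]
    intro x
    obtain ⟨a, rfl⟩ := Ideal.Quotient.mk_surjective x
    intro hx
    rw [Ideal.Quotient.eq_zero_iff_mem, hQ']
    exact hx
  letI : Algebra (A ⧸ Q.comap (algebraMap A B)) Ω := φ'.toAlgebra
  haveI h1 : Algebra.IsIntegral (A ⧸ Q.comap (algebraMap A B)) (B ⧸ Q) := by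
    infer_instance
  haveI h2 : Module.IsTorsionFree (A ⧸ Q.comap (algebraMap A B)) (B ⧸ Q) :=
    Module.isTorsionFree_iff_algebraMap_injective.mpr Ideal.algebraMap_quotient_injective
  haveI h3 : Module.IsTorsionFree (A ⧸ Q.comap (algebraMap A B)) Ω :=
    Module.isTorsionFree_iff_algebraMap_injective.mpr hinj
  let θ : B ⧸ Q →ₐ[A ⧸ Q.comap (algebraMap A B)] Ω := IsAlgClosed.lift
  refine ⟨θ.toRingHom.comp (Ideal.Quotient.mk Q), fun a => ?_⟩
  have h4 := θ.commutes (Ideal.Quotient.mk _ a)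
  exact h4

end Pool.Agent.Helper45.UQ.LYO
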